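import Pool.Agent.Helper391_TT.Codim

set_option autoImplicit false

/-!
An effective form of Demonet's conjecture for algebras with two simple modules.

Let `A` be a finite dimensional algebra over an arbitrary field with two indecomposable projective
modules `P₁`, `P₂`, and let `d` be an upper bound for the dimensions of `Hom(P₁, P₂)` and
`Hom(P₂, P₁)`. If the finitely many lattice points with coordinates of absolute value at most the
Fibonacci number `F_{d+1}` lie in the `g`-vector fan, then `A` is `τ`-tilting finite.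
-/

namespace Pool.Agent.Results.MP_655e1e_al.RankTwoEffective

open Pool.Agent.Helper391_TT

universe u

variable {k A : Type u} [Field k] [Ring A] [Algebra k A] {ι : Type} [Fintype ι]

theorem med_of_fib (B : ProjBasis k A ι) (d : ℕ)
    (rig : ∀ x : ι → ℤ, (∀ i, |x i| ≤ (Nat.fib (d + 1) : ℤ)) →
      ∃ F : Obj k A, Rigid F ∧ B.Cls F x) (n : ℕ) :
    ∀ (j : ℕ) (F G : Obj k A) (x y : ι → ℤ), n + j = d → B.Cls F x → B.Cls G y →
      (∀ i, |x i| ≤ (Nat.fib (j + 1) : ℤ)) → (∀ i, |y i| ≤ (Nat.fib (j + 1) : ℤ)) →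
      (∀ i, |x i + y i| ≤ (Nat.fib (j + 2) : ℤ)) → Med n F G := by
  induction n with
  | zero => intro j F G x y _ _ _ _ _ _; trivial
  | succ n ih =>
    intro j F G x y hj hx hy h1 h2 h3
    have hmono : (Nat.fib (j + 1) : ℤ) ≤ Nat.fib (j + 2) := by
      exact_mod_cast Nat.fib_mono (by omega)
    have hfib : (Nat.fib (j + 3) : ℤ) = Nat.fib (j + 1) + Nat.fib (j + 2) := by
      exact_mod_cast Nat.fib_add_two
    obtain ⟨H, hH, cH⟩ := rig (fun i => x i + y i) (fun i => (h3 i).trans (by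
      exact_mod_cast Nat.fib_mono (by omega)))
    refine ⟨H, hH, fun X => ?_, ?_, ?_⟩
    · rw [cH X, hx X, hy X, ← Finset.sum_add_distrib]
      exact Finset.sum_congr rfl fun i _ => by ring
    · refine ih (j + 1) F H x (fun i => x i + y i) (by omega) hx cH
        (fun i => (h1 i).trans hmono) h3 fun i => ?_
      have e1 := abs_add_le (x i) (x i + y i)
      have e2 := h1 i
      have e3 := h3 i
      change |x i + (x i + y i)| ≤ (Nat.fib (j + 3) : ℤ)
      rw [hfib]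
      linarith
    · refine ih (j + 1) H G (fun i => x i + y i) y (by omega) cH hy h3
        (fun i => (h2 i).trans hmono) fun i => ?_
      have e1 := abs_add_le (x i + y i) (y i)
      have e2 := h2 i
      have e3 := h3 i
      change |x i + y i + y i| ≤ (Nat.fib (j + 3) : ℤ)
      rw [hfib]
      linarith

theorem list_of_cov (B : ProjBasis k A ι) (F G : Obj k A) (x y : ι → ℤ) (hx : B.Cls F x)
    (hy : B.Cls G y) (h : Cov F G) :
    ∃ L : List (Obj k A × Obj k A),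
      (∀ p ∈ L, Rigid p.1 ∧ Rigid p.2 ∧ Cmp p.1 p.2) ∧
      ∀ a b : ℝ, 0 ≤ a → 0 ≤ b → ∃ p ∈ L, ∃ s t : ℝ, 0 ≤ s ∧ 0 ≤ t ∧ ∀ Y : FM k A,
        ∑ i, (a * (x i : ℝ) + b * (y i : ℝ)) * (dd (B.P i) Y : ℝ) =
          s * chi p.1 Y + t * chi p.2 Y := by
  obtain ⟨L, hL⟩ := h
  refine ⟨L.map fun p => (p.F', p.G'), ?_, ?_⟩
  · intro q hq
    obtain ⟨p, -, rfl⟩ := List.mem_map.mp hq
    exact ⟨p.rF, p.rG, p.cmp⟩
  · intro a b ha hb
    obtain ⟨p, hp, s, t, hs, ht, e1, e2⟩ := hL a b ha hb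
    refine ⟨_, List.mem_map_of_mem hp, s, t, hs, ht, fun Y => ?_⟩
    have h1 : (chi F Y : ℝ) = ∑ i, (x i : ℝ) * dd (B.P i) Y := by
      rw [hx Y]; push_cast; rfl
    have h2 : (chi G Y : ℝ) = ∑ i, (y i : ℝ) * dd (B.P i) Y := by
      rw [hy Y]; push_cast; rfl
    have h3 : ∑ i, (a * (x i : ℝ) + b * (y i : ℝ)) * (dd (B.P i) Y : ℝ) =
        a * chi F Y + b * chi G Y := by
      rw [h1, h2, Finset.mul_sum, Finset.mul_sum, ← Finset.sum_add_distrib]
      exact Finset.sum_congr rfl fun i _ => by ring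
    rw [h3, p.hF Y, p.hG Y, e1, e2]
    push_cast
    ring

theorem cls_stalk (B : ProjBasis k A ι) [DecidableEq ι] (i : ι) :
    B.Cls (Obj.stalk (B.P i) (B.proj i)) (Pi.single i 1) := by
  intro X
  rw [chi_stalk, Finset.sum_eq_single i]
  · simp
  · intro j _ hj
    rw [Pi.single_eq_of_ne hj, zero_mul]
  · simp

theorem cls_shift (B : ProjBasis k A ι) [DecidableEq ι] (i : ι) :
    B.Cls (Obj.shift (B.P i) (B.proj i)) (Pi.single i (-1)) := by
  intro X
  rw [chi_shift, Finset.sum_eq_single i]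
  · simp
  · intro j _ hj
    rw [Pi.single_eq_of_ne hj, zero_mul]
  · simp

theorem ee_shift_le (P : FM k A) (hP : Module.Projective A P.X) (X : FM k A) :
    ee (Obj.shift P hP) X ≤ dd P X := by
  unfold ee dd
  exact Submodule.finrank_quotient_le _

theorem dd_congr_right (P : FM k A) {X Y : FM k A} (e : X.X ≃ₗ[A] Y.X) : dd P X = dd P Y := by
  have hpk : ∀ (e : X.X ≃ₗ[A] Y.X) (c : k) (x : X.X), e (c • x) = c • e x := by
    intro e c x
    rw [← algebraMap_smul A c x, map_smul, algebraMap_smul]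
  unfold dd
  exact LinearEquiv.finrank_eq
    { toFun := fun φ => e.toLinearMap ∘ₗ φ
      map_add' := fun _ _ => LinearMap.comp_add _ _ _
      map_smul' := fun c φ => LinearMap.ext fun x => hpk e c (φ x)
      invFun := fun φ => e.symm.toLinearMap ∘ₗ φ
      left_inv := fun φ => LinearMap.ext fun x => e.symm_apply_apply (φ x)
      right_inv := fun φ => LinearMap.ext fun x => e.apply_symm_apply (φ x) }

theorem stalk_M (P : FM k A) (hP : Module.Projective A P.X) :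
    Nonempty ((Obj.stalk P hP).M.X ≃ₗ[A] P.X) := ⟨(MinPres.ofProj P hP).iso⟩

theorem result [Module.Finite k A] (B : ProjBasis k A ι) (hι : Fintype.card ι = 2) (d : ℕ)
    (hd : ∀ i j, i ≠ j → Module.finrank k ((B.P i).X →ₗ[A] (B.P j).X) ≤ d)
    (h : ∀ x : ι → ℤ, (∀ i, |x i| ≤ (Nat.fib (d + 1) : ℤ)) → (fun i => (x i : ℝ)) ∈ B.gFan) :
    TauTiltingFinite k A := by
  classical
  have rig : ∀ x : ι → ℤ, (∀ i, |x i| ≤ (Nat.fib (d + 1) : ℤ)) →
      ∃ F : Obj k A, Rigid F ∧ B.Cls F x := fun x hx => rigid_of_mem B x (h x hx)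
  obtain ⟨i₀, i₁, hne, hall⟩ : ∃ i₀ i₁ : ι, i₀ ≠ i₁ ∧ ∀ i, i = i₀ ∨ i = i₁ := by
    have h1 := Fintype.card_eq.mp (hι.trans (Fintype.card_fin 2).symm)
    obtain ⟨e⟩ := h1
    refine ⟨e.symm 0, e.symm 1, fun h2 => ?_, fun i => ?_⟩
    · have := e.symm.injective h2
      exact absurd this (by decide)
    · have h3 : ∀ j : Fin 2, j = 0 ∨ j = 1 := by decide
      rcases h3 (e i) with h4 | h4
      · left; rw [← h4, e.symm_apply_apply]
      · right; rw [← h4, e.symm_apply_apply]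
  -- rigidity of the four basic objects
  have rS : ∀ i, Rigid (Obj.stalk (B.P i) (B.proj i)) := fun i => ee_stalk _ _ _
  have rT : ∀ i, Rigid (Obj.shift (B.P i) (B.proj i)) := fun i =>
    ee_subsingleton _ _ (shift_M _ _)
  have quad : ∀ i j : ι, i ≠ j →
      Cov (Obj.stalk (B.P i) (B.proj i)) (Obj.shift (B.P j) (B.proj j)) := by
    intro i j hij
    refine cov_of_med d _ _ (rS i) (rT j) ?_ ?_ ?_
    · refine med_of_fib B d rig d 0 _ _ _ _ (by omega) (cls_stalk B i) (cls_shift B j) ?_ ?_ ?_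
      · intro l
        by_cases hl : l = i
        · subst hl; simp
        · rw [Pi.single_eq_of_ne hl]; simp
      · intro l
        by_cases hl : l = j
        · subst hl; simp
        · rw [Pi.single_eq_of_ne hl]; simp
      · intro l
        by_cases hl : l = i
        · subst hl
          rw [Pi.single_eq_same, Pi.single_eq_of_ne hij]; simp
        · rw [Pi.single_eq_of_ne hl]
          by_cases hl' : l = j
          · subst hl'; rw [Pi.single_eq_same]; simp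
          · rw [Pi.single_eq_of_ne hl']; simp
    · rw [ee_stalk]; omega
    · refine (ee_shift_le _ _ _).trans ?_
      obtain ⟨e⟩ := stalk_M (B.P i) (B.proj i)
      rw [dd_congr_right (B.P j) (X := (Obj.stalk (B.P i) (B.proj i)).M) (Y := B.P i) e]
      exact hd j i (Ne.symm hij)
  have q1 : Cov (Obj.stalk (B.P i₀) (B.proj i₀)) (Obj.stalk (B.P i₁) (B.proj i₁)) :=
    cov_of_med 0 _ _ (rS i₀) (rS i₁) trivial (by rw [ee_stalk]) (by rw [ee_stalk])
  have q4 : Cov (Obj.shift (B.P i₀) (B.proj i₀)) (Obj.shift (B.P i₁) (B.proj i₁)) :=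
    cov_of_med 0 _ _ (rT i₀) (rT i₁) trivial
      (by rw [ee_subsingleton _ _ (shift_M _ _)]) (by rw [ee_subsingleton _ _ (shift_M _ _)])
  obtain ⟨L₁, g₁, c₁⟩ := list_of_cov B _ _ _ _ (cls_stalk B i₀) (cls_stalk B i₁) q1
  obtain ⟨L₂, g₂, c₂⟩ := list_of_cov B _ _ _ _ (cls_stalk B i₀) (cls_shift B i₁) (quad i₀ i₁ hne)
  obtain ⟨L₃, g₃, c₃⟩ := list_of_cov B _ _ _ _ (cls_stalk B i₁) (cls_shift B i₀)
    (quad i₁ i₀ (Ne.symm hne))
  obtain ⟨L₄, g₄, c₄⟩ := list_of_cov B _ _ _ _ (cls_shift B i₀) (cls_shift B i₁) q4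
  let Z : Empty → Obj k A := fun j => j.elim
  obtain ⟨n, W, hW⟩ := fin_of_cover Z (fun i => i.elim) (L₁ ++ L₂ ++ L₃ ++ L₄) (by
    intro p hp
    have key : Rigid p.1 ∧ Rigid p.2 ∧ Cmp p.1 p.2 := by
      rcases List.mem_append.mp hp with hp | hp
      · rcases List.mem_append.mp hp with hp | hp
        · rcases List.mem_append.mp hp with hp | hp
          · exact g₁ p hp
          · exact g₂ p hp
        · exact g₃ p hp
      · exact g₄ p hp
    exact ⟨key.1, key.2.1, key.2.2, fun j => j.elim⟩)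
  refine ⟨n, W, fun X hX hXr => ?_⟩
  obtain ⟨T, hT⟩ := (isTauRigid_iff X).mp hXr
  refine hW X T hX hT (fun j => j.elim) ?_
  obtain ⟨x, hx⟩ := B.exists_chi T.obj
  have fin : ∀ (L : List (Obj k A × Obj k A)) (v w : ι → ℤ) (a b : ℝ),
      (∀ i, (x i : ℝ) = a * (v i : ℝ) + b * (w i : ℝ)) →
      (∀ p ∈ L, p ∈ L₁ ++ L₂ ++ L₃ ++ L₄) →
      (∃ p ∈ L, ∃ s t : ℝ, 0 ≤ s ∧ 0 ≤ t ∧ ∀ Y : FM k A,
        ∑ i, (a * (v i : ℝ) + b * (w i : ℝ)) * (dd (B.P i) Y : ℝ) =
        s * chi p.1 Y + t * chi p.2 Y) →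
      ∃ p ∈ L₁ ++ L₂ ++ L₃ ++ L₄, ∃ s t : ℝ, 0 ≤ s ∧ 0 ≤ t ∧ ∃ c : Empty → ℝ, ∀ Y : FM k A,
        (chi T.obj Y : ℝ) = s * chi p.1 Y + t * chi p.2 Y +
          ∑ j, c j * (chi (Z j) Y : ℝ) := by
    intro L v w a b he hsub ⟨p, hp, s, t, hs, ht, hd⟩
    refine ⟨p, hsub p hp, s, t, hs, ht, fun _ => 0, fun Y => ?_⟩
    have h1 : (chi T.obj Y : ℝ) = ∑ i, (x i : ℝ) * (dd (B.P i) Y : ℝ) := by
      rw [hx Y]; push_cast; rfl
    rw [h1, Finset.sum_congr rfl fun i _ => by rw [he i], hd Y]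
    simp
  have hsgl : ∀ (i : ι) (c : ℤ), ((Pi.single i c : ι → ℤ) i : ℝ) = c := fun i c => by
    rw [Pi.single_eq_same]
  have hsgl' : ∀ (i j : ι) (c : ℤ), j ≠ i → ((Pi.single i c : ι → ℤ) j : ℝ) = 0 :=
    fun i j c hij => by
      rw [Pi.single_eq_of_ne hij]; simp
  rcases le_total 0 (x i₀ : ℝ) with ha | ha <;> rcases le_total 0 (x i₁ : ℝ) with hb | hb
  · refine fin L₁ _ _ (x i₀) (x i₁) (fun i => ?_) (fun p hp => by simp [hp]) (c₁ _ _ ha hb)
    rcases hall i with rfl | rfl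
    · rw [hsgl, hsgl' _ _ _ hne]; simp
    · rw [hsgl, hsgl' _ _ _ (Ne.symm hne)]; simp
  · refine fin L₂ _ _ (x i₀) (-(x i₁)) (fun i => ?_) (fun p hp => by simp [hp])
      (c₂ _ _ ha (by linarith))
    rcases hall i with rfl | rfl
    · rw [hsgl, hsgl' _ _ _ hne]; simp
    · rw [hsgl, hsgl' _ _ _ (Ne.symm hne)]; simp
  · refine fin L₃ _ _ (x i₁) (-(x i₀)) (fun i => ?_) (fun p hp => by simp [hp])
      (c₃ _ _ hb (by linarith))
    rcases hall i with rfl | rfl
    · rw [hsgl, hsgl' _ _ _ hne]; simp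
    · rw [hsgl, hsgl' _ _ _ (Ne.symm hne)]; simp
  · refine fin L₄ _ _ (-(x i₀)) (-(x i₁)) (fun i => ?_) (fun p hp => by simp [hp])
      (c₄ _ _ (by linarith) (by linarith))
    rcases hall i with rfl | rfl
    · rw [hsgl, hsgl' _ _ _ hne]; simp
    · rw [hsgl, hsgl' _ _ _ (Ne.symm hne)]; simp

end Pool.Agent.Results.MP_655e1e_al.RankTwoEffective
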