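import Pool.Agent.Helper391_TT.Back

set_option autoImplicit false

/-!
Demonet's conjecture along rational planes.

Let `A` be a finite dimensional algebra over an arbitrary field, of any rank, and `v`, `w` two
lattice points. If all points `a v + b w` with natural coefficients lie in the `g`-vector fan,
then the real cone spanned by `v` and `w` is covered by finitely many cones of the fan.
-/

namespace Pool.Agent.Results.MP_655e1e_al.RationalPlanes

open Pool.Agent.Helper391_TT

universe u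

theorem result {k A : Type u} [Field k] [Ring A] [Algebra k A] [Module.Finite k A]
    {ι : Type} [Fintype ι] (B : ProjBasis k A ι) (v w : ι → ℤ)
    (h : ∀ a b : ℕ, (fun i => (a : ℝ) * (v i : ℝ) + (b : ℝ) * (w i : ℝ)) ∈ B.gFan) :
    ∃ (n : ℕ) (V P : Fin n → FM k A), (∀ j, IsTauRigidPair (V j) (P j)) ∧
      ∀ s t : ℝ, 0 ≤ s → 0 ≤ t →
        ∃ j, (fun i => s * (v i : ℝ) + t * (w i : ℝ)) ∈ B.cone (V j) (P j) := by
  have h1 : ∀ a b : ℕ, ∃ H : Obj k A, Rigid H ∧
      B.Cls H (fun i => (a : ℤ) * v i + (b : ℤ) * w i) := by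
    intro a b
    apply rigid_of_mem B
    have h2 : (fun i => (((a : ℤ) * v i + (b : ℤ) * w i : ℤ) : ℝ)) =
        (fun i => (a : ℝ) * (v i : ℝ) + (b : ℝ) * (w i : ℝ)) := by
      funext i
      push_cast
      rfl
    rw [h2]
    exact h a b
  obtain ⟨F, hF, cF⟩ := h1 1 0
  obtain ⟨G, hG, cG⟩ := h1 0 1
  have cF' : B.Cls F v := by
    intro X
    rw [cF X]
    exact Finset.sum_congr rfl fun i _ => by push_cast; ring
  have cG' : B.Cls G w := by
    intro X
    rw [cG X]
    exact Finset.sum_congr rfl fun i _ => by push_cast; ring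
  have comb : ∀ (H : Obj k A) (a b : ℕ), (∀ X, chi H X = a * chi F X + b * chi G X) →
      B.Cls H (fun i => (a : ℤ) * v i + (b : ℤ) * w i) := by
    intro H a b hH X
    rw [hH X, cF' X, cG' X, Finset.mul_sum, Finset.mul_sum, ← Finset.sum_add_distrib]
    exact Finset.sum_congr rfl fun i _ => by ring
  obtain ⟨L, hL⟩ := cov_of_all F G hF hG (fun a b => by
    obtain ⟨H, hH, cH⟩ := h1 a b
    refine ⟨H, hH, fun X => ?_⟩
    rw [cH X, cF' X, cG' X, Finset.mul_sum, Finset.mul_sum, ← Finset.sum_add_distrib]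
    exact Finset.sum_congr rfl fun i _ => by ring)
  choose V P hVP hmem using fun p : Piece F G => mem_cone_of_cmp B p.F' p.G' p.rF p.rG p.cmp
    (fun i => (p.a : ℤ) * v i + (p.b : ℤ) * w i) (fun i => (p.c : ℤ) * v i + (p.d : ℤ) * w i)
    (comb p.F' p.a p.b p.hF) (comb p.G' p.c p.d p.hG)
  refine ⟨L.length, fun j => V (L.get j), fun j => P (L.get j), fun j => hVP _,
    fun s t hs ht => ?_⟩
  obtain ⟨p, hp, s', t', hs', ht', e1, e2⟩ := hL s t hs ht
  obtain ⟨j, rfl⟩ := List.get_of_mem hp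
  refine ⟨j, ?_⟩
  have h3 := hmem (L.get j) s' t' hs' ht'
  have h4 : (fun i => s * (v i : ℝ) + t * (w i : ℝ)) = fun i =>
      s' * ((((L.get j).a : ℤ) * v i + ((L.get j).b : ℤ) * w i : ℤ) : ℝ) +
      t' * ((((L.get j).c : ℤ) * v i + ((L.get j).d : ℤ) * w i : ℤ) : ℝ) := by
    funext i
    push_cast
    rw [e1, e2]
    ring
  rw [h4]
  exact h3

end Pool.Agent.Results.MP_655e1e_al.RationalPlanes
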